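import Pool.Agent.Helper44.GN.Defs

open Finset MeasureTheory Filter Topology Matrix
open scoped ENNReal ContDiff

namespace Pool.Agent.Helper44.GN

open Pool.Agent.Helper44.GF

theorem eng_Bc (n : ℕ) (δ : ℝ) : IsCompact (Bx n δ) := isCompact_univ_pi fun _ => isCompact_Icc

theorem eng_pos {n : ℕ} {δ : ℝ} (hd : 0 < δ) {z : Fin n → ℝ} (hz : z ∈ Bx n δ) (x : Fin n) :
    0 < z x := lt_of_lt_of_le hd (hz x (Set.mem_univ x)).1

theorem eng_pc {n : ℕ} {δ : ℝ} (hd : 0 < δ) (c : ℝ) (x : Fin n) :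
    ContinuousOn (fun z : Fin n → ℝ => z x ^ c) (Bx n δ) :=
  ContinuousOn.rpow_const (continuous_apply x).continuousOn
    (fun _ hz => Or.inl (eng_pos hd hz x).ne')

theorem eng_yp {α a z : ℝ} (ha : 0 < a) (hz : 0 < z) : 0 < yy α a z := by
  unfold yy
  positivity

theorem eng_Yc {n : ℕ} {δ : ℝ} (hd : 0 < δ) (α a : ℝ) :
    ContinuousOn (Yv α a) (Bx n δ) := by
  apply continuousOn_pi.mpr
  intro x
  exact continuousOn_const.add (continuousOn_const.mul (eng_pc hd _ x))

theorem eng_YO {n : ℕ} {δ : ℝ} (hd : 0 < δ) (α : ℝ) {a : ℝ} (ha : 0 < a) :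
    Set.MapsTo (Yv α a) (Bx n δ) (Og n) := by
  intro z hz x
  exact eng_yp ha (eng_pos hd hz x)

theorem eng_ssc {n : ℕ} {δ : ℝ} (hd : 0 < δ) (α : ℝ) {a : ℝ} (ha : 0 < a) (x : Fin n) :
    ContinuousOn (fun z : Fin n → ℝ => ss α a (z x)) (Bx n δ) := by
  unfold ss
  apply ContinuousOn.div
  · exact continuousOn_const.mul (eng_pc hd _ x)
  · exact continuousOn_const.add (continuousOn_const.mul (eng_pc hd _ x))
  · intro z hz
    have := eng_yp (α := α) ha (eng_pos hd hz x)
    unfold yy at this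
    exact this.ne'

theorem eng_qc {n m : ℕ} (V : Matrix (Fin n) (Fin m) ℝ) : Continuous (fun y => qf V y) := by
  unfold qf TT
  apply Continuous.matrix_det
  exact (continuous_const.matrix_mul (continuous_id.matrix_diagonal)).matrix_mul continuous_const

theorem eng_rc {n m : ℕ} (V : Matrix (Fin n) (Fin m) ℝ) {δ : ℝ} (hd : 0 < δ) (α : ℝ) {a : ℝ}
    (ha : 0 < a) (hq : ∀ y ∈ Og n, 0 < qf V y) : ContinuousOn (rho V α a) (Bx n δ) := by
  unfold rho
  apply ContinuousOn.mul
  · unfold wz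
    fun_prop
  · apply ContinuousOn.rpow_const
    · exact (eng_qc V).comp_continuousOn (eng_Yc hd α a)
    · intro z hz
      exact Or.inl (hq _ (eng_YO hd α ha hz)).ne'

theorem eng_r0 {n m : ℕ} (V : Matrix (Fin n) (Fin m) ℝ) {δ : ℝ} (hd : 0 < δ) (α : ℝ) {a : ℝ}
    (ha : 0 < a) (hq : ∀ y ∈ Og n, 0 < qf V y) {z : Fin n → ℝ} (hz : z ∈ Bx n δ) :
    0 < rho V α a z := by
  unfold rho wz
  have h1 := hq _ (eng_YO hd α ha hz)
  have h2 : 0 < ∏ x, z x ^ 3 := Finset.prod_pos fun x _ => pow_pos (eng_pos hd hz x) 3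
  positivity

theorem st_ENG (h1 : ST_MLS2) (h2 : ST_AVB) (h3 : ST_FCT) (h4 : ST_SMO) (_h5 : ST_YD) :
    ST_ENG := by
  intro n m V W α a δ ϑ κ g E hV hW hP hϑ0 hϑ1 hκ hLG hE1 hE2 hE3 hE4
  have hα : 0 < α := lt_of_lt_of_le (by norm_num) hP.al
  have hα1 := hP.au
  have ha := hP.a0
  have hd := hP.d0
  have hF := h3 n m V W hV hW
  have hq : ∀ y ∈ Og n, 0 < qf V y := fun y hy => (hF y hy).1
  obtain ⟨-, -, hlV, hd2, -⟩ := h4 n m V W hV hW
  obtain ⟨-, -, hlW, -, -⟩ := h4 n m W V hW hV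
  have hYO : Set.MapsTo (Yv α a) (Bx n δ) (Og n) := eng_YO hd α ha
  have hYc : ContinuousOn (Yv α a) (Bx n δ) := eng_Yc hd α a
  have hrc := eng_rc V hd α ha hq
  have hBm : MeasurableSet (Bx n δ) := (eng_Bc n δ).measurableSet
  have hint : ∀ f : (Fin n → ℝ) → ℝ, ContinuousOn f (Bx n δ) →
      IntegrableOn (fun z => f z * rho V α a z) (Bx n δ) := fun f hf =>
    (hf.mul hrc).integrableOn_compact (eng_Bc n δ)
  have hgc : ContinuousOn (fun z => Real.exp (g (Yv α a z))) (Bx n δ) :=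
    Real.continuous_exp.comp_continuousOn (hLG.sm.continuousOn.comp hYc hYO)
  have hEc : ∀ x, ContinuousOn (fun z => E x (Yv α a z)) (Bx n δ) := fun x =>
    (hLG.ct x).comp hYc hYO
  have hlVc : ∀ x, ContinuousOn (fun z => lv V (Yv α a z) x) (Bx n δ) := fun x =>
    (hlV x).comp hYc hYO
  have hlWc : ∀ x, ContinuousOn (fun z => lv W (Yv α a z) x) (Bx n δ) := fun x =>
    (hlW x).comp hYc hYO
  have hd2c : ∀ x, ContinuousOn (fun z => d2 V W (Yv α a z) x) (Bx n δ) := fun x =>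
    (hd2 x).comp hYc hYO
  have hssc : ∀ x : Fin n, ContinuousOn (fun z : Fin n → ℝ => ss α a (z x)) (Bx n δ) := fun x =>
    eng_ssc hd α ha x
  -- the first step
  have s1 := h1 n m V α a δ g E hV hP hLG (fun z hz x => hE2 _ (hYO hz) x)
  -- the second step
  set F : Fin n → (Fin n → ℝ) → ℝ := fun x z => Real.exp (g (Yv α a z)) * (ss α a (z x) ^ 2
        * (lv V (Yv α a z) x + lv W (Yv α a z) x) * d2 V W (Yv α a z) x) with hFdef
  have hFc : ∀ x, ContinuousOn (F x) (Bx n δ) := by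
    intro x
    exact hgc.mul ((((hssc x).pow 2).mul ((hlVc x).add (hlWc x))).mul (hd2c x))
  have s2 : IB δ (rho V α a) (fun z => Real.exp (g (Yv α a z))
          * ∑ x, (ss α a (z x) * E x (Yv α a z)) ^ 2)
      ≤ κ * ∑ x, IB δ (rho V α a) (F x) := by
    unfold IB
    rw [← integral_finsetSum _ (fun x _ => hint _ (hFc x)), ← integral_const_mul]
    apply setIntegral_mono_on _ _ hBm
    · intro z hz
      have hr := eng_r0 V hd α ha hq hz
      have e1 : κ * ∑ x, F x z * rho V α a z = Real.exp (g (Yv α a z))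
          * (∑ x, κ * (ss α a (z x) ^ 2
        * (lv V (Yv α a z) x + lv W (Yv α a z) x) * d2 V W (Yv α a z) x)) * rho V α a z := by
        simp only [hFdef]
        rw [← Finset.sum_mul, ← Finset.mul_sum, ← Finset.mul_sum]
        ring
      rw [e1]
      apply mul_le_mul_of_nonneg_right _ hr.le
      apply mul_le_mul_of_nonneg_left _ (Real.exp_pos _).le
      apply Finset.sum_le_sum
      intro x _
      have e2 := hE4 _ (hYO hz) x
      calc (ss α a (z x) * E x (Yv α a z)) ^ 2 = ss α a (z x) ^ 2 * E x (Yv α a z) ^ 2 := by ring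
        _ ≤ ss α a (z x) ^ 2 * (κ * (lv V (Yv α a z) x + lv W (Yv α a z) x)
            * d2 V W (Yv α a z) x) := mul_le_mul_of_nonneg_left e2 (sq_nonneg _)
        _ = _ := by ring
    · apply hint
      apply hgc.mul
      apply continuousOn_finsetSum
      intro x _
      exact ((hssc x).mul (hEc x)).pow 2
    · apply Integrable.const_mul
      exact integrable_finsetSum _ (fun x _ => hint _ (hFc x))
  -- the third step
  set c : ℝ := 1 / (2 * ϑ) * (2 * (1 - α) + 5 * a) with hc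
  have hc0 : 0 ≤ c := by
    have : 0 ≤ 1 - α := by linarith
    positivity
  have s3 : ∑ x, IB δ (rho V α a) (F x)
      ≤ c * (2 * IB δ (rho V α a) (fun z => Real.exp (g (Yv α a z)) * sg V W (Yv α a z))) := by
    have s4 : ∀ x, IB δ (rho V α a) (F x)
        ≤ c * IB δ (rho V α a) (fun z => Real.exp (g (Yv α a z)) * d2 V W (Yv α a z) x) :=
      fun x => h2 n m V W α a δ ϑ g E hV hW hP hϑ0 hϑ1 hLG x (fun y hy => hE1 y hy x)
        (fun y hy => hE3 y hy x)
    have s5 : ∑ x, IB δ (rho V α a) (fun z => Real.exp (g (Yv α a z)) * d2 V W (Yv α a z) x)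
        = 2 * IB δ (rho V α a) (fun z => Real.exp (g (Yv α a z)) * sg V W (Yv α a z)) := by
      unfold IB
      have hi : ∀ x ∈ (univ : Finset (Fin n)), IntegrableOn (fun z =>
          (fun z => Real.exp (g (Yv α a z)) * d2 V W (Yv α a z) x) z * rho V α a z) (Bx n δ) :=
        fun x _ => hint _ (hgc.mul (hd2c x))
      rw [← integral_finsetSum _ hi, ← integral_const_mul]
      apply setIntegral_congr_fun hBm
      intro z hz
      have e3 := (hF _ (hYO hz)).2.2.2.1
      simp only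
      rw [← Finset.sum_mul, ← Finset.mul_sum, e3]
      ring
    calc ∑ x, IB δ (rho V α a) (F x)
        ≤ ∑ x, c * IB δ (rho V α a)
          (fun z => Real.exp (g (Yv α a z)) * d2 V W (Yv α a z) x) :=
          Finset.sum_le_sum fun x _ => s4 x
      _ = _ := by rw [← Finset.mul_sum, s5]
  set I := IB δ (rho V α a) (fun z => Real.exp (g (Yv α a z)) * sg V W (Yv α a z)) with hI
  calc En δ (rho V α a) (fun z => g (Yv α a z))
      ≤ 16 / (3 * α ^ 2) * IB δ (rho V α a) (fun z => Real.exp (g (Yv α a z))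
          * ∑ x, (ss α a (z x) * E x (Yv α a z)) ^ 2) := s1
    _ ≤ 16 / (3 * α ^ 2) * (κ * ∑ x, IB δ (rho V α a) (F x)) :=
        mul_le_mul_of_nonneg_left s2 (by positivity)
    _ ≤ 16 / (3 * α ^ 2) * (κ * (c * (2 * I))) :=
        mul_le_mul_of_nonneg_left (mul_le_mul_of_nonneg_left s3 hκ) (by positivity)
    _ = 16 * κ / (3 * α ^ 2 * ϑ) * (2 * (1 - α) + 5 * a) * I := by
        rw [hc]
        field_simp

end Pool.Agent.Helper44.GN
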