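import Pool.Agent.Helper44.GN.Defs
import Pool.Agent.Helper86.LP.Base

open Finset MeasureTheory Filter Topology Matrix
open scoped ENNReal ContDiff

namespace Pool.Agent.Helper44.GN

open Pool.Agent.Helper44.GF

theorem lcx_gm {A B t s : ℝ} (hA : 0 < A) (hB : 0 < B) (ht : 0 < t) (hs : 0 < s)
    (hts : t + s = 1) : 1 + A ^ t * B ^ s ≤ (1 + A) ^ t * (1 + B) ^ s := by
  have hA1 : (0 : ℝ) < 1 + A := by linarith
  have hB1 : (0 : ℝ) < 1 + B := by linarith
  have hp : 0 < (1 + A) ^ t * (1 + B) ^ s := by positivity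
  have h1 := Real.geom_mean_le_arith_mean2_weighted (p₁ := 1 / (1 + A)) (p₂ := 1 / (1 + B))
    ht.le hs.le (by positivity) (by positivity) hts
  have h2 := Real.geom_mean_le_arith_mean2_weighted (p₁ := A / (1 + A)) (p₂ := B / (1 + B))
    ht.le hs.le (by positivity) (by positivity) hts
  rw [Real.div_rpow (by norm_num) hA1.le, Real.div_rpow (by norm_num) hB1.le, Real.one_rpow,
    Real.one_rpow, div_mul_div_comm, one_mul] at h1
  rw [Real.div_rpow hA.le hA1.le, Real.div_rpow hB.le hB1.le, div_mul_div_comm] at h2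
  have h3 : t * (1 / (1 + A)) + s * (1 / (1 + B)) + (t * (A / (1 + A)) + s * (B / (1 + B))) = 1 := by
    field_simp
    have : s = 1 - t := by linarith
    subst this
    ring
  have h4 : (1 + A ^ t * B ^ s) / ((1 + A) ^ t * (1 + B) ^ s) ≤ 1 := by
    rw [add_div]
    linarith
  rwa [div_le_one hp] at h4

theorem lcx_yy {α a u v t s : ℝ} (hα : 0 < α) (ha : 0 < a) (hu : 0 < u) (hv : 0 < v)
    (ht : 0 < t) (hs : 0 < s) (hts : t + s = 1) :
    yy α a (t * u + s * v) ≤ yy α a u ^ t * yy α a v ^ s := by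
  have hc : 0 < 4 / α := by positivity
  have h0 := Real.geom_mean_le_arith_mean2_weighted (p₁ := u) (p₂ := v) ht.le hs.le hu.le hv.le hts
  have hg : 0 < u ^ t * v ^ s := by positivity
  have h1 : (t * u + s * v) ^ (-(4 / α)) ≤ (u ^ t * v ^ s) ^ (-(4 / α)) :=
    Real.rpow_le_rpow_of_nonpos hg h0 (by linarith)
  have h2 := lcx_gm (A := a * u ^ (-(4 / α))) (B := a * v ^ (-(4 / α))) (by positivity)
    (by positivity) ht hs hts
  have h3 : (a * u ^ (-(4 / α))) ^ t * (a * v ^ (-(4 / α))) ^ s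
      = a * (u ^ t * v ^ s) ^ (-(4 / α)) := by
    rw [Real.mul_rpow ha.le (by positivity), Real.mul_rpow ha.le (by positivity),
      Real.mul_rpow (by positivity) (by positivity), ← Real.rpow_mul hu.le, ← Real.rpow_mul hv.le,
      ← Real.rpow_mul hu.le, ← Real.rpow_mul hv.le, mul_comm (-(4 / α)) t,
      mul_comm (-(4 / α)) s]
    have h4 : a ^ t * a ^ s = a := by rw [← Real.rpow_add ha, hts, Real.rpow_one]
    calc a ^ t * u ^ (t * -(4 / α)) * (a ^ s * v ^ (s * -(4 / α)))
        = (a ^ t * a ^ s) * (u ^ (t * -(4 / α)) * v ^ (s * -(4 / α))) := by ring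
      _ = _ := by rw [h4]
  rw [h3] at h2
  unfold yy
  calc 1 + a * (t * u + s * v) ^ (-(4 / α)) ≤ 1 + a * (u ^ t * v ^ s) ^ (-(4 / α)) := by
        have := mul_le_mul_of_nonneg_left h1 ha.le
        linarith
    _ ≤ _ := h2

theorem lcx_mono {n m : ℕ} (V : Matrix (Fin n) (Fin m) ℝ) (y y' : Fin n → ℝ)
    (h0 : ∀ x, 0 ≤ y x) (h1 : ∀ x, y x ≤ y' x) : qf V y ≤ qf V y' := by
  have e1 := Pool.Agent.Helper86.LP.cauchy_binet V y
  have e2 := Pool.Agent.Helper86.LP.cauchy_binet V y'
  have hk : (0 : ℝ) < Nat.factorial m := by positivity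
  have h : (Nat.factorial m : ℝ) * qf V y ≤ (Nat.factorial m : ℝ) * qf V y' := by
    unfold qf TT
    rw [e1, e2]
    apply Finset.sum_le_sum
    intro f _
    apply mul_le_mul_of_nonneg_right _ (sq_nonneg _)
    exact Finset.prod_le_prod (fun i _ => h0 _) (fun i _ => h1 _)
  exact le_of_mul_le_mul_left h hk

theorem st_LCX : ST_LCX := by
  intro n m V α a δ hV hP u hu v hv t s ht hs hts
  have hα : 0 < α := lt_of_lt_of_le (by norm_num) hP.al
  have ha := hP.a0
  have hd := hP.d0
  have hu0 : ∀ x, 0 < u x := fun x => lt_of_lt_of_le hd (hu x (Set.mem_univ x)).1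
  have hv0 : ∀ x, 0 < v x := fun x => lt_of_lt_of_le hd (hv x (Set.mem_univ x)).1
  have hY : ∀ z : ℝ, 0 < z → 0 < yy α a z := by
    intro z hz
    unfold yy
    positivity
  have h1 := Pool.Agent.Helper86.LP.det_logconvex V hV (fun x => Real.log (yy α a (u x)))
    (fun x => Real.log (yy α a (v x))) ht hs hts
  have e1 : (fun i => Real.exp (Real.log (yy α a (u i)))) = Yv α a u := by
    funext i
    rw [Real.exp_log (hY _ (hu0 i))]
    rfl
  have e2 : (fun i => Real.exp (Real.log (yy α a (v i)))) = Yv α a v := by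
    funext i
    rw [Real.exp_log (hY _ (hv0 i))]
    rfl
  rw [e1, e2] at h1
  refine le_trans ?_ h1
  apply lcx_mono
  · intro x
    have hw : 0 < (t • u + s • v) x := by
      have h2 := hu0 x
      have h3 := hv0 x
      simp only [Pi.add_apply, Pi.smul_apply, smul_eq_mul]
      positivity
    exact (hY _ hw).le
  · intro x
    have h2 := lcx_yy hα ha (hu0 x) (hv0 x) ht hs hts
    have h3 : Real.exp ((t • (fun x => Real.log (yy α a (u x)))
        + s • fun x => Real.log (yy α a (v x))) x) = yy α a (u x) ^ t * yy α a (v x) ^ s := by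
      simp only [Pi.add_apply, Pi.smul_apply, smul_eq_mul]
      rw [Real.exp_add, Real.rpow_def_of_pos (hY _ (hu0 x)), Real.rpow_def_of_pos (hY _ (hv0 x)),
        mul_comm t, mul_comm s]
    rw [h3]
    exact h2

end Pool.Agent.Helper44.GN
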